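import Pool.Agent.Y107.SDDefs

/-!
# Partial Chow-Kunneth decompositions, nilpotent correspondences, polynomials in a correspondence
-/

set_option autoImplicit false

open CategoryTheory AlgebraicGeometry

universe u v w

namespace Pool.Agent.Helper45M.SK

open Pool.Agent.H914 Pool.Agent.H914.VarClass Pool.Agent.H914.VarClass.Obj Pool.Agent.W492.BB
  Pool.Agent.W550.Corr Pool.Agent.TH133 Pool.Agent.Y107

variable {k : Type u} [Field k] {𝒱 : VarClass k} {C : TheoryData.{u, v, 0} 𝒱 ℚ}

/-- The self-correspondences `p 0, …, p (r - 1)` of degree zero of `X` are mutually orthogonal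
idempotents, and `p n` acts as the identity on `H^(n + 2 e)(X)` and as zero on `H^m(X)` for
`m ≠ n + 2 e`. For `e = 0` and `r = dim X` this is the lower half of a Chow-Kunneth decomposition. -/
structure PartialCK {K : Type w} [Field K] (H : WeilTheoryData.{u, v, w} C K) (X : 𝒱.Obj) (r : ℕ)
    (e : ℤ) (p : ℕ → C.A (X.prod X)) : Prop where
  deg : ∀ n < r, C.Deg X.dim (p n)
  idem : ∀ n < r, C.comp (p n) (p n) = p n
  orth : ∀ m < r, ∀ n < r, m ≠ n → C.comp (p m) (p n) = 0
  act_self : ∀ n < r, ∀ a : H.A X, H.Deg (n + 2 * e) a → H.act (H.cl (p n)) a = a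
  act_ne : ∀ n < r, ∀ (m : ℤ) (a : H.A X), m ≠ n + 2 * e → H.Deg m a →
    H.act (H.cl (p n)) a = 0

/-- The sum `p 0 + ⋯ + p (r - 1)`. -/
noncomputable def psum {X : 𝒱.Obj} (r : ℕ) (p : ℕ → C.A (X.prod X)) : C.A (X.prod X) :=
  ∑ n ∈ Finset.range r, p n

/-- A power of the self-correspondence `γ` is zero. -/
def IsNilpotentCor (C : TheoryData.{u, v, 0} 𝒱 ℚ) {X : 𝒱.Obj} (γ : C.A (X.prod X)) : Prop :=
  ∃ N : ℕ, corPow C γ N = 0

/-- The value `∑ c_i T^i` of the polynomial `P = ∑ c_i t^i` at the self-correspondence `T`. -/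
noncomputable def evalCor (C : TheoryData.{u, v, 0} 𝒱 ℚ) {X : 𝒱.Obj} (P : Polynomial ℚ)
    (T : C.A (X.prod X)) : C.A (X.prod X) :=
  ∑ i ∈ P.support, P.coeff i • corPow C T i

/-- For an idempotent `p` of degree zero: the endomorphisms `p ∘ z ∘ p` of the motive `(X, p)`, where
`z` is a homologically trivial self-correspondence of degree zero of `X`, are nilpotent. -/
def HomTrivialNilpotent {K : Type w} [Field K] (H : WeilTheoryData.{u, v, w} C K) {X : 𝒱.Obj}
    (p : C.A (X.prod X)) : Prop :=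
  ∀ z : C.A (X.prod X), C.Deg X.dim z → H.cl z = 0 → IsNilpotentCor C (C.comp (C.comp p z) p)

/-- The Kunneth projectors of `Y` of the degrees `n + 2 e`, `0 ≤ n < r`, lift to mutually orthogonal
idempotents `p_n`, and the homologically trivial endomorphisms of the motive `(Y, p_0 + ⋯ + p_(r-1))` are
nilpotent. -/
def HasGoodPart {K : Type w} [Field K] (H : WeilTheoryData.{u, v, w} C K) (Y : 𝒱.Obj) (r : ℕ)
    (e : ℤ) : Prop :=
  ∃ p : ℕ → C.A (Y.prod Y), PartialCK H Y r e p ∧ HomTrivialNilpotent H (psum r p)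

end Pool.Agent.Helper45M.SK
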