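import Pool.Agent.Helper45M.SK.Alg
import Pool.Agent.Helper45M.SK.Defs
import Pool.Agent.Y107.SDMul

/-!
# The criterion for self-dual Chow-Kunneth decompositions
-/

set_option autoImplicit false

open CategoryTheory AlgebraicGeometry

universe u v w

namespace Pool.Agent.Helper45M.SK

open Pool.Agent.H914 Pool.Agent.H914.VarClass Pool.Agent.H914.VarClass.Obj Pool.Agent.W492.BB
  Pool.Agent.W550.Corr Pool.Agent.TH133 Pool.Agent.Y107

set_option linter.unusedSectionVars false

variable {k : Type u} [Field k] {𝒱 : VarClass k}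

variable {C : TheoryData.{u, v, 0} 𝒱 ℚ} [hC : IsChowProj C]

section chow

variable {X Y Z : 𝒱.Obj}

include hC

lemma evalCor_eq (P : Polynomial ℚ) (T : Cor C X) :
    evalCor C P (T : C.A (X.prod X)) = (Polynomial.aeval T P : Cor C X) := by
  rw [Polynomial.aeval_eq_sum_range' (n := P.natDegree + 1) (by omega)]
  have h1 : evalCor C P (T : C.A (X.prod X)) =
      (∑ i ∈ P.support, P.coeff i • (T ^ i : Cor C X) : Cor C X) := by
    unfold evalCor
    apply Finset.sum_congr rfl
    intro i _
    rw [corPow_eq]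
    rfl
  rw [h1]
  apply Finset.sum_subset Polynomial.supp_subset_range_natDegree_succ
  intro i _ hi
  rw [Polynomial.notMem_support_iff.1 hi, zero_smul]
  rfl

lemma isNilpotentCor_iff (T : Cor C X) :
    IsNilpotentCor C (T : C.A (X.prod X)) ↔ IsNilpotent (T : Cor C X) := by
  unfold IsNilpotentCor IsNilpotent
  simp_rw [corPow_eq]
  rfl

end chow

variable {K : Type w} [Field K] {H : WeilTheoryData.{u, v, w} C K} [hH : IsWeilProj H]
  {X Y Z : 𝒱.Obj}

include hC hH

/-- The action of the transpose. -/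
theorem actH_tp {a : Cor C X} (c : ℤ → K)
    (h : ∀ m, ∀ x ∈ H.gr X m, actH C X H a x = c m • x) (m : ℤ) (y : H.A X)
    (hy : y ∈ H.gr X m) : actH C X H (tpR C X a) y = c (2 * X.dim - m) • y := by
  rw [← sub_eq_zero]
  apply H.nondeg
  have h2 : H.tr X ∘ₗ LinearMap.mulLeft K (actH C X H (tpR C X a) y) =
      H.tr X ∘ₗ LinearMap.mulLeft K (c (2 * X.dim - m) • y) := by
    apply ext_gr H
    intro l x hx
    rw [LinearMap.comp_apply, LinearMap.comp_apply, LinearMap.mulLeft_apply,
      LinearMap.mulLeft_apply]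
    have h3 : H.tr X (actH C X H (tpR C X a) y * x) = H.tr X (y * actH C X H a x) :=
      tr_act' H (X := X) (Y := X) a x y
    rw [h3, h l x hx, mul_smul_comm, map_smul, smul_mul_assoc, map_smul]
    by_cases hl : l = 2 * X.dim - m
    · rw [hl]
    · rw [tr_zero H (H.mul_mem hy hx) (by omega), smul_zero, smul_zero]
  intro x
  have h3 := LinearMap.congr_fun h2 x
  rw [LinearMap.comp_apply, LinearMap.comp_apply, LinearMap.mulLeft_apply,
    LinearMap.mulLeft_apply] at h3
  rw [sub_mul, map_sub, h3, sub_self]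

/-- The lower half of a decomposition, in the ring of correspondences. -/
structure Half (H : WeilTheoryData.{u, v, w} C K) [IsWeilProj H] (X : 𝒱.Obj)
    (p : ℕ → Cor C X) : Prop where
  mem : ∀ n < X.dim, p n ∈ cor0 C X
  mul : ∀ m < X.dim, ∀ n < X.dim, p m * p n = if m = n then p m else 0
  act : ∀ n < X.dim, ∀ (m : ℤ) (a : H.A X), a ∈ H.gr X m →
    actH C X H (p n) a = if m = n then a else 0

lemma half_iff {p : ℕ → Cor C X} : PartialCK H X X.dim 0 p ↔ Half H X p := by
  constructor
  · intro h
    refine ⟨h.deg, fun m hm n hn => ?_, fun n hn m a ha => ?_⟩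
    · by_cases h1 : m = n
      · rw [if_pos h1]
        subst h1
        exact h.idem m hm
      · rw [if_neg h1]
        exact h.orth n hn m hm (Ne.symm h1)
    · change H.act (H.cl (p n)) a = _
      split_ifs with h1
      · subst h1
        exact h.act_self n hn a (by
          change a ∈ H.gr X _
          rwa [mul_zero, add_zero])
      · exact h.act_ne n hn m a (by rwa [mul_zero, add_zero]) ha
  · intro h
    refine ⟨h.mem, fun n hn => ?_, fun m hm n hn hmn => ?_, fun n hn a ha => ?_,
      fun n hn m a hm ha => ?_⟩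
    · have := h.mul n hn n hn
      rw [if_pos rfl] at this
      exact this
    · have := h.mul n hn m hm
      rw [if_neg (Ne.symm hmn)] at this
      exact this
    · have h1 : a ∈ H.gr X n := by
        have : a ∈ H.gr X (n + 2 * 0) := ha
        rwa [mul_zero, add_zero] at this
      have := h.act n hn n a h1
      rw [if_pos rfl] at this
      exact this
    · have := h.act n hn m a ha
      rw [if_neg (by rwa [mul_zero, add_zero] at hm)] at this
      exact this

lemma Half.sum_mem {p : ℕ → Cor C X} (h : Half H X p) :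
    ∑ n ∈ Finset.range X.dim, p n ∈ cor0 C X :=
  (cor0 C X).sum_mem fun n hn => h.mem n (Finset.mem_range.1 hn)

lemma Half.mul_sum {p : ℕ → Cor C X} (h : Half H X p) {n : ℕ} (hn : n < X.dim) :
    p n * ∑ n ∈ Finset.range X.dim, p n = p n := by
  rw [Finset.mul_sum, Finset.sum_eq_single n]
  · rw [h.mul n hn n hn, if_pos rfl]
  · intro m hm hmn
    rw [h.mul n hn m (Finset.mem_range.1 hm), if_neg (Ne.symm hmn)]
  · intro h1
    exact absurd (Finset.mem_range.2 hn) h1

lemma Half.sum_mul {p : ℕ → Cor C X} (h : Half H X p) {n : ℕ} (hn : n < X.dim) :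
    (∑ n ∈ Finset.range X.dim, p n) * p n = p n := by
  rw [Finset.sum_mul, Finset.sum_eq_single n]
  · rw [h.mul n hn n hn, if_pos rfl]
  · intro m hm hmn
    rw [h.mul m (Finset.mem_range.1 hm) n hn, if_neg hmn]
  · intro h1
    exact absurd (Finset.mem_range.2 hn) h1

lemma Half.sum_idem {p : ℕ → Cor C X} (h : Half H X p) :
    (∑ n ∈ Finset.range X.dim, p n) * (∑ n ∈ Finset.range X.dim, p n) =
      ∑ n ∈ Finset.range X.dim, p n := by
  rw [Finset.sum_mul]
  exact Finset.sum_congr rfl fun n hn => h.mul_sum (Finset.mem_range.1 hn)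

lemma Half.act_sum {p : ℕ → Cor C X} (h : Half H X p) (m : ℤ) (a : H.A X) (ha : a ∈ H.gr X m) :
    actH C X H (∑ n ∈ Finset.range X.dim, p n) a = if m < X.dim then a else 0 := by
  rw [map_sum, LinearMap.sum_apply]
  by_cases ha0 : a = 0
  · subst ha0
    simp
  have hm0 := nonneg_of_mem H ha ha0
  obtain ⟨m, rfl⟩ := Int.eq_ofNat_of_zero_le hm0
  by_cases hmd : (m : ℤ) < X.dim
  · rw [if_pos hmd, Finset.sum_eq_single m]
    · rw [h.act m (by omega) m a ha, if_pos rfl]
    · intro j hj hjm
      rw [h.act j (Finset.mem_range.1 hj) m a ha, if_neg]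
      intro h1; apply hjm; exact_mod_cast h1.symm
    · intro h1
      exfalso; apply h1; rw [Finset.mem_range]; omega
  · rw [if_neg hmd]
    apply Finset.sum_eq_zero
    intro j hj
    rw [Finset.mem_range] at hj
    rw [h.act j hj m a ha, if_neg (by omega)]

lemma Half.act_tp_sum {p : ℕ → Cor C X} (h : Half H X p) (m : ℤ) (a : H.A X)
    (ha : a ∈ H.gr X m) :
    actH C X H (tpR C X (∑ n ∈ Finset.range X.dim, p n)) a = if (X.dim : ℤ) < m then a else 0 := by
  have h1 := actH_tp (H := H) (a := ∑ n ∈ Finset.range X.dim, p n)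
    (fun m => if m < X.dim then (1 : K) else 0) (fun m x hx => by
      rw [h.act_sum m x hx]
      split_ifs
      · rw [one_smul]
      · rw [zero_smul]) m a ha
  rw [h1]
  by_cases h2 : (X.dim : ℤ) < m
  · rw [if_pos h2, if_pos (by omega), one_smul]
  · rw [if_neg h2, if_neg (by omega), zero_smul]

lemma Half.act_tp_mul {p : ℕ → Cor C X} (h : Half H X p) :
    actH C X H (tpR C X (∑ n ∈ Finset.range X.dim, p n) * ∑ n ∈ Finset.range X.dim, p n) = 0 := by
  apply ext_gr H
  intro m a ha
  rw [map_mul, Module.End.mul_apply, h.act_sum m a ha, LinearMap.zero_apply]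
  split_ifs with h1
  · rw [h.act_tp_sum m a ha, if_neg (by omega)]
  · rw [map_zero]

lemma Half.act_mul_tp {p : ℕ → Cor C X} (h : Half H X p) :
    actH C X H ((∑ n ∈ Finset.range X.dim, p n) * tpR C X (∑ n ∈ Finset.range X.dim, p n)) = 0 := by
  apply ext_gr H
  intro m a ha
  rw [map_mul, Module.End.mul_apply, h.act_tp_sum m a ha, LinearMap.zero_apply]
  split_ifs with h1
  · rw [h.act_sum m a ha, if_neg (by omega)]
  · rw [map_zero]

/-- **The criterion.** -/
theorem exists_selfDual_of_half {p : ℕ → Cor C X} (h : Half H X p)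
    (hn : IsNilpotent ((∑ n ∈ Finset.range X.dim, p n) *
      tpR C X (∑ n ∈ Finset.range X.dim, p n))) :
    ∃ π, IsCK H X π ∧ IsSelfDual C π := by
  obtain ⟨P, hP⟩ : ∃ P, P = ∑ n ∈ Finset.range X.dim, p n := ⟨_, rfl⟩
  rw [← hP] at hn
  have hPm : P ∈ cor0 C X := hP ▸ h.sum_mem
  have hPP : P * P = P := hP ▸ h.sum_idem
  have hφ1 : actH C X H (tpR C X P * P) = 0 := hP ▸ h.act_tp_mul
  have hφ2 : actH C X H (P * tpR C X P) = 0 := hP ▸ h.act_mul_tp
  obtain ⟨i, hi, j, hj, hip, hpj, hji, hsi, hsj, hφi, hφj⟩ :=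
    exists_isotropic (actH C X H) (tpR C X) tpR_mul tpR_tpR tpR_one (cor0 C X)
      (fun a ha => tpR_mem ha) P hPm hPP hn hφ1 hφ2
  have hpP : ∀ n < X.dim, p n * P = p n := fun n hn => hP ▸ h.mul_sum hn
  have hPp : ∀ n < X.dim, P * p n = p n := fun n hn => hP ▸ h.sum_mul hn
  let q : ℕ → Cor C X := fun n => if n < X.dim then i * p n * j else 0
  have q1 : ∀ n < X.dim, q n = i * p n * j := fun n hn => by simp only [q]; rw [if_pos hn]
  have q2 : ∀ n, ¬ n < X.dim → q n = 0 := fun n hn => by simp only [q]; rw [if_neg hn]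
  have hact : ∀ (n : ℕ) (m : ℤ) (a : H.A X), n < X.dim → a ∈ H.gr X m →
      actH C X H (q n) a = if m = n then a else 0 := by
    intro n m a hn ha
    have e1 : actH C X H (q n) = actH C X H (p n) := by
      rw [q1 n hn, map_mul, map_mul, hφi, hφj, ← map_mul, ← map_mul, hPp n hn, hpP n hn]
    rw [e1, h.act n hn m a ha]
  refine selfDual_of_half q ?_ ?_ ?_ ?_ ?_ hact ?_
  · intro n
    by_cases hn : n < X.dim
    · rw [q1 n hn]
      exact (cor0 C X).mul_mem ((cor0 C X).mul_mem hi (h.mem n hn)) hj
    · rw [q2 n hn]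
      exact (cor0 C X).zero_mem
  · intro n hn
    exact q2 n (by omega)
  · intro m n
    by_cases hm : m < X.dim
    · by_cases hn : n < X.dim
      · rw [q1 m hm, q1 n hn]
        have e1 : i * p m * j * (i * p n * j) = i * (p m * (j * i) * p n) * j := by
          simp only [mul_assoc]
        rw [e1, hji, hpP m hm, h.mul m hm n hn]
        split_ifs
        · rfl
        · rw [mul_zero, zero_mul]
      · rw [q2 n hn, mul_zero, if_neg (by omega)]
    · rw [q2 m hm, zero_mul]
      split_ifs <;> rfl
  · intro m n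
    by_cases hm : m < X.dim
    · by_cases hn : n < X.dim
      · rw [q1 m hm, q1 n hn, tpR_mul, tpR_mul]
        have e1 : i * p m * j * (tpR C X j * (tpR C X (p n) * tpR C X i)) =
            i * p m * (j * tpR C X j) * (tpR C X (p n) * tpR C X i) := by
          simp only [mul_assoc]
        rw [e1, hsj, mul_zero, zero_mul]
      · rw [q2 n hn, map_zero, mul_zero]
    · rw [q2 m hm, zero_mul]
  · intro m n
    by_cases hm : m < X.dim
    · by_cases hn : n < X.dim
      · rw [q1 m hm, q1 n hn, tpR_mul, tpR_mul]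
        have e1 : tpR C X j * (tpR C X (p m) * tpR C X i) * (i * p n * j) =
            tpR C X j * tpR C X (p m) * (tpR C X i * i) * (p n * j) := by
          simp only [mul_assoc]
        rw [e1, hsi, mul_zero, zero_mul]
      · rw [q2 n hn, mul_zero]
    · rw [q2 m hm, map_zero, zero_mul]
  · intro n m a hn ha
    have h1 := actH_tp (H := H) (a := q n) (fun m => if m = n then (1 : K) else 0)
      (fun m x hx => by
        rw [hact n m x hn hx]
        split_ifs
        · rw [one_smul]
        · rw [zero_smul]) m a ha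
    rw [h1]
    by_cases h2 : m = (2 * X.dim - n : ℕ)
    · rw [if_pos h2, if_pos (by omega), one_smul]
    · rw [if_neg h2, if_neg (by omega), zero_smul]

end Pool.Agent.Helper45M.SK
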