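import Pool.Agent.Helper45M.SK.Poly

/-!
# Isotropic corrections of idempotents in a ring with an anti-involution
-/

set_option autoImplicit false

namespace Pool.Agent.Helper45M.SK

open Polynomial

section

variable {A : Type*} [Ring A] [Algebra ℚ A]

theorem aeval_intertwine {a b x : A} (h : a * x = x * b) (P : ℚ[X]) :
    aeval a P * x = x * aeval b P := by
  induction P using Polynomial.induction_on' with
  | add P Q hP hQ => rw [map_add, map_add, add_mul, mul_add, hP, hQ]
  | monomial n c =>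
    have hn : a ^ n * x = x * b ^ n := by
      induction n with
      | zero => simp
      | succ n ih => rw [pow_succ, mul_assoc, h, ← mul_assoc, ih, mul_assoc, ← pow_succ]
    rw [aeval_monomial, aeval_monomial, mul_assoc, hn, ← mul_assoc, Algebra.commutes c x, mul_assoc]

theorem aeval_sigma (σ : A →+ A) (hmul : ∀ a b, σ (a * b) = σ b * σ a) (hone : σ 1 = 1)
    (a : A) (P : ℚ[X]) : σ (aeval a P) = aeval (σ a) P := by
  have hsmul : ∀ (q : ℚ) (x : A), σ (q • x) = q • σ x := fun q x => map_rat_smul σ q x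
  induction P using Polynomial.induction_on' with
  | add P Q hP hQ => rw [map_add, map_add, map_add, hP, hQ]
  | monomial n c =>
    have hn : σ (a ^ n) = σ a ^ n := by
      induction n with
      | zero => simp [hone]
      | succ n ih => rw [pow_succ, hmul, ih, ← pow_succ']
    rw [aeval_monomial, aeval_monomial, ← Algebra.smul_def, hsmul, hn, Algebra.smul_def]

theorem aeval_eq_zero_of_dvd {a : A} {P Q : ℚ[X]} (h : P ∣ Q) (hP : aeval a P = 0) :
    aeval a Q = 0 := by
  obtain ⟨R, rfl⟩ := h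
  rw [map_mul, hP, zero_mul]

theorem aeval_mem (S : Subalgebra ℚ A) {a : A} (ha : a ∈ S) (P : ℚ[X]) : aeval a P ∈ S := by
  have h := (aeval (⟨a, ha⟩ : S) P).2
  have e : ((aeval (⟨a, ha⟩ : S) P : S) : A) = aeval a P := by
    rw [← Subalgebra.coe_val, ← aeval_algHom_apply]
    rfl
  rwa [e] at h

/-- **Isotropic correction of an idempotent.** -/
theorem exists_isotropic {B : Type*} [Ring B] (φ : A →+* B) (σ : A →+ A)
    (hmul : ∀ a b, σ (a * b) = σ b * σ a) (hinv : ∀ a, σ (σ a) = a) (hone : σ 1 = 1)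
    (S : Subalgebra ℚ A) (hS : ∀ a ∈ S, σ a ∈ S) (p : A) (hpS : p ∈ S) (hp : p * p = p)
    (hn : IsNilpotent (p * σ p)) (h1 : φ (σ p * p) = 0) (h2 : φ (p * σ p) = 0) :
    ∃ i ∈ S, ∃ j ∈ S, i * p = i ∧ p * j = j ∧ j * i = p ∧ σ i * i = 0 ∧ j * σ j = 0 ∧
      φ i = φ p ∧ φ j = φ p := by
  have hsmul : ∀ (c : ℚ) (x : A), σ (c • x) = c • σ x := fun c x => map_rat_smul σ c x
  obtain ⟨q, hq⟩ : ∃ q, q = σ p := ⟨_, rfl⟩
  rw [← hq] at hn h1 h2
  have hqS : q ∈ S := by rw [hq]; exact hS p hpS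
  have hσq : σ q = p := by rw [hq]; exact hinv p
  have hqq : q * q = q := by rw [hq, ← hmul, hp]
  obtain ⟨ν, hν⟩ : ∃ ν, ν = p * q * p := ⟨_, rfl⟩
  obtain ⟨μ, hμ⟩ : ∃ μ, μ = q * p * q := ⟨_, rfl⟩
  have hσν : σ ν = μ := by rw [hν, hmul, hmul, hσq, ← hq, hμ, mul_assoc]
  have hσμ : σ μ = ν := by rw [← hσν, hinv]
  have hνS : ν ∈ S := by rw [hν]; exact S.mul_mem (S.mul_mem hpS hqS) hpS
  have hμS : μ ∈ S := by rw [hμ]; exact S.mul_mem (S.mul_mem hqS hpS) hqS
  -- nilpotency
  obtain ⟨N, hN⟩ : ∃ N, ν ^ N = 0 := by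
    obtain ⟨N, hN⟩ := hn
    refine ⟨N + 1, ?_⟩
    have : ∀ n, ν ^ (n + 1) = (p * q) ^ (n + 1) * p := by
      intro n
      induction n with
      | zero => rw [zero_add, pow_one, pow_one, hν]
      | succ n ih =>
        rw [pow_succ, ih, hν, pow_succ (p * q) (n + 1)]
        simp only [mul_assoc]
        rw [← mul_assoc p p, hp]
    rw [this, pow_succ, hN, zero_mul, zero_mul]
  obtain ⟨h, hh⟩ := exists_sqrt N
  obtain ⟨v, hv⟩ := exists_inv N h
  obtain ⟨H, hH⟩ : ∃ H, H = aeval ν h := ⟨_, rfl⟩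
  obtain ⟨V, hV⟩ : ∃ V, V = aeval ν v := ⟨_, rfl⟩
  obtain ⟨H', hH'⟩ : ∃ H', H' = aeval μ h := ⟨_, rfl⟩
  obtain ⟨V', hV'⟩ : ∃ V', V' = aeval μ v := ⟨_, rfl⟩
  have hXN : aeval ν ((X : ℚ[X]) ^ N) = 0 := by rw [map_pow, aeval_X, hN]
  have eH : 1 + 2 * H + ν * (H * H) = 0 := by
    have := aeval_eq_zero_of_dvd hh hXN
    rw [map_add, map_add, map_mul, map_mul, map_pow, aeval_X, map_one, ← hH] at this
    rw [← pow_two, ← this]
    congr 3
    exact (map_ofNat (aeval ν) 2).symm
  have eV : (1 + ν * H) * V = 1 := by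
    have := aeval_eq_zero_of_dvd hv hXN
    rw [map_sub, map_mul, map_add, map_mul, aeval_X, map_one, ← hH, ← hV] at this
    exact sub_eq_zero.1 this
  have eV2 : V * (1 + ν * H) = 1 := by
    have c1 : (1 + ν * H) * V = V * (1 + ν * H) := by
      have : (1 + ν * H) = aeval ν (1 + X * h) := by
        rw [map_add, map_mul, aeval_X, map_one, hH]
      rw [this, hV, ← map_mul, ← map_mul, mul_comm]
    rw [← c1, eV]
  have hσH : σ H = H' := by rw [hH, aeval_sigma σ hmul hone, hσν, hH']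
  have hσV : σ V = V' := by rw [hV, aeval_sigma σ hmul hone, hσν, hV']
  have hσV' : σ V' = V := by rw [← hσV, hinv]
  obtain ⟨α, hα⟩ : ∃ α, α = q * p := ⟨_, rfl⟩
  obtain ⟨β, hβ⟩ : ∃ β, β = p * q := ⟨_, rfl⟩
  have hσα : σ α = α := by rw [hα, hmul, hσq, ← hq]
  have hσβ : σ β = β := by rw [hβ, hmul, hσq, ← hq]
  have hαν : μ * α = α * ν := by
    rw [hμ, hα, hν]
    simp only [mul_assoc]
    rw [← mul_assoc q q, hqq, ← mul_assoc p p, hp]
  have hβμ : ν * β = β * μ := by
    rw [hμ, hβ, hν]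
    simp only [mul_assoc]
    rw [← mul_assoc q q, hqq, ← mul_assoc p p, hp]
  have hpν : p * ν = ν := by rw [hν, ← mul_assoc, ← mul_assoc, hp]
  have hνp : ν * p = ν := by rw [hν, mul_assoc, hp]
  have hqμ : q * μ = μ := by rw [hμ, ← mul_assoc, ← mul_assoc, hqq]
  have hμq : μ * q = μ := by rw [hμ, mul_assoc, hqq]
  have hHα : H' * α = α * H := by rw [hH, hH']; exact aeval_intertwine hαν h
  have hVβ : V * β = β * V' := by rw [hV, hV']; exact aeval_intertwine hβμ v
  have hHp : H * p = p * H := by rw [hH]; exact aeval_intertwine (by rw [hpν, hνp]) h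
  have hVp : V * p = p * V := by rw [hV]; exact aeval_intertwine (by rw [hpν, hνp]) v
  have hV'q : V' * q = q * V' := by rw [hV']; exact aeval_intertwine (by rw [hqμ, hμq]) v
  have hHν : H * ν = ν * H := by rw [hH]; exact aeval_intertwine rfl h
  have hαα : α * α = α * ν := by
    rw [hα, hν]
    simp only [mul_assoc]
    rw [← mul_assoc p p, hp]
  have hqα : q * α = α := by rw [hα, ← mul_assoc, hqq]
  have hαp : α * p = α := by rw [hα, mul_assoc, hp]
  have hpβ : p * β = β := by rw [hβ, ← mul_assoc, hp]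
  have hβq : β * q = β := by rw [hβ, mul_assoc, hqq]
  have hpα : p * α = ν := by rw [hα, ← mul_assoc, hν]
  -- the first correction
  obtain ⟨i, hi⟩ : ∃ i, i = p + α * H := ⟨_, rfl⟩
  have hip : i * p = i := by
    rw [hi, add_mul, hp, mul_assoc, hHp, ← mul_assoc, hαp]
  have hσi : σ i = q + α * H := by
    rw [hi, map_add, hmul, hσH, hσα, hHα, ← hq]
  have hσii : σ i * i = 0 := by
    rw [hσi, hi]
    have e1 : (q + α * H) * (p + α * H) = α * (1 + 2 * H + ν * (H * H)) := by
      have e2 : α * H * p = α * H := by rw [mul_assoc, hHp, ← mul_assoc, hαp]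
      have e3 : α * H * (α * H) = α * (ν * (H * H)) := by
        calc α * H * (α * H) = H' * α * (α * H) := by rw [hHα]
          _ = H' * (α * α) * H := by simp only [mul_assoc]
          _ = H' * α * (ν * H) := by rw [hαα]; simp only [mul_assoc]
          _ = α * (H * ν) * H := by rw [hHα]; simp only [mul_assoc]
          _ = _ := by rw [hHν]; simp only [mul_assoc]
      rw [add_mul, mul_add, mul_add, e2, e3, ← mul_assoc q α, hqα, ← hα]
      noncomm_ring
    rw [e1, eH, mul_zero]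
  -- the inverse
  obtain ⟨y, hy⟩ : ∃ y, y = -((1 / 2 : ℚ) • (V * β * V')) := ⟨_, rfl⟩
  have hσy : σ y = y := by
    rw [hy, map_neg, hsmul, hmul, hmul, hσV', hσV, hσβ, mul_assoc]
  have hpy : p * y = y := by
    rw [hy, mul_neg, mul_smul_comm, ← mul_assoc, ← mul_assoc, ← hVp, mul_assoc V p β, hpβ]
  have hyq : y * q = y := by
    rw [hy, neg_mul, smul_mul_assoc, mul_assoc (V * β), hV'q, ← mul_assoc, mul_assoc V β q, hβq]
  obtain ⟨j, hj⟩ : ∃ j, j = V * p + y * σ i := ⟨_, rfl⟩
  have hVpi : V * p * i = p := by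
    rw [hi, mul_add, mul_assoc, hp, mul_assoc V p, ← mul_assoc p α, hpα]
    have : V * p + V * (ν * H) = V * (1 + ν * H) * p := by
      rw [mul_add, mul_one, add_mul]
      congr 1
      rw [mul_assoc, mul_assoc, hHp, ← mul_assoc ν, hνp]
    rw [this, eV2, one_mul]
  have hji : j * i = p := by
    rw [hj, add_mul, hVpi, mul_assoc y, hσii, mul_zero, add_zero]
  have hpj : p * j = j := by
    rw [hj, mul_add, ← mul_assoc, ← hVp, mul_assoc, hp, ← mul_assoc, hpy]
  have hσj : σ j = q * V' + i * y := by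
    rw [hj, map_add, hmul, hmul, hσV, hσy, hinv, ← hq]
  have hjσj : j * σ j = 0 := by
    have e1 : σ i * (q * V') = q := by
      have := congrArg σ hVpi
      rw [hmul, hmul, hσV, ← hq] at this
      exact this
    have e2 : V * p * (q * V') = V * β * V' := by
      rw [hβ]; simp only [mul_assoc]
    have e3 : j * (q * V') = V * β * V' + y := by
      rw [hj, add_mul, e2, mul_assoc y, e1, hyq]
    rw [hσj, mul_add, e3, ← mul_assoc j, hji, hpy, hy]
    have e4 : V * β * V' = (1 / 2 : ℚ) • (V * β * V') + (1 / 2 : ℚ) • (V * β * V') := by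
      rw [← add_smul]; norm_num
    nth_rewrite 1 [e4]
    abel
  -- membership
  have hHS : H ∈ S := by rw [hH]; exact aeval_mem S hνS h
  have hVS : V ∈ S := by rw [hV]; exact aeval_mem S hνS v
  have hV'S : V' ∈ S := by rw [hV']; exact aeval_mem S hμS v
  have hαS : α ∈ S := by rw [hα]; exact S.mul_mem hqS hpS
  have hβS : β ∈ S := by rw [hβ]; exact S.mul_mem hpS hqS
  have hiS : i ∈ S := by rw [hi]; exact S.add_mem hpS (S.mul_mem hαS hHS)
  have hyS : y ∈ S := by
    rw [hy]; exact S.neg_mem (S.smul_mem (S.mul_mem (S.mul_mem hVS hβS) hV'S) _)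
  have hjS : j ∈ S := by
    rw [hj]; exact S.add_mem (S.mul_mem hVS hpS) (S.mul_mem hyS (hS i hiS))
  -- the images
  have h1' : φ α = 0 := by rw [hα]; exact h1
  have h2' : φ β = 0 := by rw [hβ]; exact h2
  have hφν : φ ν = 0 := by rw [hν, map_mul, ← hβ, h2', zero_mul]
  have hφV : φ V = 1 := by
    have := congrArg φ eV
    rw [map_mul, map_add, map_mul, hφν, zero_mul, add_zero, map_one, one_mul] at this
    exact this
  have hφi : φ i = φ p := by rw [hi, map_add, map_mul, h1', zero_mul, add_zero]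
  have hφy : φ y = 0 := by
    rw [hy, map_neg, Algebra.smul_def, map_mul, map_mul, map_mul, h2', mul_zero, zero_mul, mul_zero,
      neg_zero]
  have hφj : φ j = φ p := by
    rw [hj, map_add, map_mul, map_mul, hφV, hφy, zero_mul, add_zero, one_mul]
  exact ⟨i, hiS, j, hjS, hip, hpj, hji, hσii, hjσj, hφi, hφj⟩

end

end Pool.Agent.Helper45M.SK
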