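import Pool.Agent.Helper45M.SK.Spec

/-!
# Descent of self-dual Chow-Kunneth decompositions from a partial decomposition
-/

set_option autoImplicit false

open CategoryTheory AlgebraicGeometry

universe u v w

namespace Pool.Agent.Helper45M.SK

open Pool.Agent.H914 Pool.Agent.H914.VarClass Pool.Agent.H914.VarClass.Obj Pool.Agent.W492.BB
  Pool.Agent.W550.Corr Pool.Agent.TH133 Pool.Agent.Y107

set_option linter.unusedSectionVars false

variable {k : Type u} [Field k] {𝒱 : VarClass k}

variable {C : TheoryData.{u, v, 0} 𝒱 ℚ} [hC : IsChowProj C] {X Y Z : 𝒱.Obj}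

section chow

include hC

/-- The map `z ↦ R ∘ z ∘ L`. -/
noncomputable def sandwich (L : C.A (X.prod Y)) (R : C.A (Y.prod X)) : Cor C Y →ₗ[ℚ] Cor C X :=
  ((compL C (X := X) (Y := Y) (Z := X)).flip R).comp (compL C (X := X) (Y := Y) (Z := Y) L)

lemma sandwich_apply (L : C.A (X.prod Y)) (R : C.A (Y.prod X)) (z : Cor C Y) :
    sandwich L R z = C.comp (C.comp L (z : C.A (Y.prod Y))) R := rfl

lemma sandwich_pow (L : C.A (X.prod Y)) (R : C.A (Y.prod X)) (y : Cor C Y) (S : Cor C X)
    (hy : y = C.comp R L) (hS : S = C.comp L R) (n : ℕ) : sandwich L R (y ^ n) = S ^ n * S := by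
  induction n with
  | zero =>
    rw [pow_zero, pow_zero, one_mul, sandwich_apply, hS]
    congr 1
    exact comp_dg C L
  | succ n ih =>
    rw [pow_succ' S, mul_assoc, ← ih, pow_succ']
    have e1 : (y * y ^ n : Cor C Y) = C.comp (X := Y) (Y := Y) (Z := Y) (y ^ n : Cor C Y) y := rfl
    have e2 : (S * sandwich L R (y ^ n) : Cor C X) =
        C.comp (X := X) (Y := X) (Z := X) (sandwich L R (y ^ n)) S := rfl
    have e3 : ∀ z : C.A (Y.prod Y), C.comp (C.comp L (C.comp z (C.comp R L))) R =
        C.comp (C.comp (C.comp L z) R) (C.comp L R) := by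
      intro z
      simp only [comp_assoc]
    rw [e2, sandwich_apply, e1, sandwich_apply]
    generalize hz : y ^ n = z
    rw [hy, hS]
    exact e3 z

lemma sandwich_aeval (L : C.A (X.prod Y)) (R : C.A (Y.prod X)) (y : Cor C Y) (S : Cor C X)
    (hy : y = C.comp R L) (hS : S = C.comp L R) (F : Polynomial ℚ) :
    sandwich L R (Polynomial.aeval y F) = Polynomial.aeval S F * S := by
  induction F using Polynomial.induction_on' with
  | add P Q hP hQ => rw [map_add, map_add, map_add, add_mul, hP, hQ]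
  | monomial n c =>
    rw [Polynomial.aeval_monomial, Polynomial.aeval_monomial, ← Algebra.smul_def,
      ← Algebra.smul_def, map_smul, sandwich_pow L R y S hy hS, smul_mul_assoc]

lemma isNilpotent_swap (L : C.A (X.prod Y)) (R : C.A (Y.prod X)) (y : Cor C Y) (S : Cor C X)
    (hy : y = C.comp R L) (hS : S = C.comp L R) (h : IsNilpotent y) : IsNilpotent S := by
  obtain ⟨N, hN⟩ := h
  refine ⟨N + 1, ?_⟩
  rw [pow_succ, ← sandwich_pow L R y S hy hS, hN, map_zero]

end chow

variable {K : Type w} [Field K] {H : WeilTheoryData.{u, v, w} C K} [hH : IsWeilProj H]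

include hC hH

/-- The main step: a correspondence with distinct nonzero scalars in low degrees. -/
theorem exists_selfDual_of_lowSpectrum {S : Cor C X} (hS : S ∈ cor0 C X) (P : Polynomial ℚ)
    (hP : P ≠ 0) (hPS : Polynomial.aeval S P = 0)
    (hact : ∀ n < X.dim, ∀ x ∈ H.gr X (n : ℤ), actH C X H S x = (n + 1) • x)
    (hact0 : ∀ m : ℤ, (X.dim : ℤ) ≤ m → ∀ x ∈ H.gr X m, actH C X H S x = 0)
    (hnil : ∀ z ∈ cor0 C X, actH C X H z = 0 → IsNilpotent (S * z)) :
    ∃ π, IsCK H X π ∧ IsSelfDual C π := by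
  let c : ℕ → ℚ := fun n => if n < X.dim then (n : ℚ) + 1 else 0
  have hc : ∀ m < X.dim + 1, ∀ n < X.dim + 1, m ≠ n → c m - c n ≠ 0 := by
    intro m hm n hn hmn h
    simp only [c] at h
    have hm0 : (0 : ℚ) ≤ (m : ℚ) := Nat.cast_nonneg m
    have hn0 : (0 : ℚ) ≤ (n : ℚ) := Nat.cast_nonneg n
    split_ifs at h with h1 h2 h2
    · apply hmn
      have : (m : ℚ) = n := by linarith
      exact_mod_cast this
    · linarith
    · linarith
    · omega
  obtain ⟨E, hE⟩ := exists_spectral_cor (H := H) S P hP hPS (X.dim + 1)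
    (fun n => Polynomial.X - Polynomial.C (c n))
    (fun m hm n hn hmn => Polynomial.isCoprime_X_sub_C_of_isUnit_sub
      (isUnit_iff_ne_zero.2 (hc m hm n hn hmn)))
  have hlow : ∀ n < X.dim, ∀ x ∈ H.gr X (n : ℤ),
      actH C X H (Polynomial.aeval S (Polynomial.X - Polynomial.C (c n))) x = 0 := by
    intro n hn x hx
    have hcn : c n = ((n + 1 : ℕ) : ℚ) := by
      simp only [c]
      rw [if_pos hn]
      push_cast
      rfl
    rw [map_sub, Polynomial.aeval_X, Polynomial.aeval_C, hcn, map_natCast, map_sub, map_natCast,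
      LinearMap.sub_apply, hact n hn x hx, Module.End.natCast_apply, sub_self]
  have hcd : c X.dim = 0 := if_neg (lt_irrefl _)
  have hhigh : ∀ m : ℤ, (X.dim : ℤ) ≤ m → ∀ x ∈ H.gr X m,
      actH C X H (Polynomial.aeval S (Polynomial.X - Polynomial.C (c X.dim))) x = 0 := by
    intro m hm x hx
    rw [hcd, map_zero, sub_zero, Polynomial.aeval_X]
    exact hact0 m hm x hx
  let g : ℕ → Cor C X := fun n => Polynomial.aeval S (E n)
  have half : Half H X g := by
    refine ⟨fun n _ => aeval_mem _ hS _, fun m hm n hn => ?_, fun n hn m x hx => ?_⟩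
    · by_cases h : m = n
      · rw [if_pos h, ← h]
        exact (hE m (by omega)).1
      · rw [if_neg h]
        exact ((hE m (by omega)).2.2 n (by omega) h).2.1
    · by_cases hx0 : x = 0
      · rw [hx0, map_zero]
        split_ifs <;> rfl
      have hm0 := nonneg_of_mem H hx hx0
      obtain ⟨m, rfl⟩ := Int.eq_ofNat_of_zero_le hm0
      by_cases hmd : m < X.dim
      · by_cases h : m = n
        · rw [if_pos (by rw [h])]
          subst h
          exact (hE m (by omega)).2.1 x (hlow m hmd x hx)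
        · rw [if_neg (by exact_mod_cast h)]
          exact ((hE n (by omega)).2.2 m (by omega) (Ne.symm h)).2.2 x (hlow m hmd x hx)
      · rw [if_neg (by omega)]
        exact ((hE n (by omega)).2.2 X.dim (by omega) (by omega)).2.2 x
          (hhigh m (by omega) x hx)
  apply exists_selfDual_of_half half
  obtain ⟨G, hG⟩ : ∃ G, G = ∑ n ∈ Finset.range X.dim, g n := ⟨_, rfl⟩
  rw [← hG]
  have hGm : G ∈ cor0 C X := hG ▸ half.sum_mem
  have hGG : G * G = G := hG ▸ half.sum_idem
  have hG0 : actH C X H (G * tpR C X G) = 0 := hG ▸ half.act_mul_tp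
  have hdvd : (Polynomial.X : Polynomial ℚ) ∣ ∑ n ∈ Finset.range X.dim, E n := by
    apply Finset.dvd_sum
    intro n hn
    rw [Finset.mem_range] at hn
    have := ((hE n (by omega)).2.2 X.dim (by omega) (by omega)).1
    rwa [hcd, map_zero, sub_zero] at this
  obtain ⟨F, hF⟩ := hdvd
  have hGS : G = S * Polynomial.aeval S F := by
    have h1 := congrArg (Polynomial.aeval S) hF
    rw [map_sum, map_mul, Polynomial.aeval_X] at h1
    rw [hG, ← h1]
  have e1 : G * tpR C X G = S * (Polynomial.aeval S F * (G * tpR C X G)) := by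
    rw [← mul_assoc S, ← hGS, ← mul_assoc, hGG]
  rw [e1]
  apply hnil
  · exact (cor0 C X).mul_mem (aeval_mem _ hS _) ((cor0 C X).mul_mem hGm (tpR_mem hGm))
  · rw [map_mul, hG0, mul_zero]

end Pool.Agent.Helper45M.SK
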