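import Pool.Agent.Helper45M.SK.Desc

/-!
# Descent of self-dual Chow-Kunneth decompositions from a partial decomposition: the theorem
-/

set_option autoImplicit false

open CategoryTheory AlgebraicGeometry

universe u v w

namespace Pool.Agent.Helper45M.SK

open Pool.Agent.H914 Pool.Agent.H914.VarClass Pool.Agent.H914.VarClass.Obj Pool.Agent.W492.BB
  Pool.Agent.W550.Corr Pool.Agent.TH133 Pool.Agent.Y107

set_option linter.unusedSectionVars false

variable {k : Type u} [Field k] {𝒱 : VarClass k}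

variable {C : TheoryData.{u, v, 0} 𝒱 ℚ} [hC : IsChowProj C] {X Y Z : 𝒱.Obj}

variable {K : Type w} [Field K] {H : WeilTheoryData.{u, v, w} C K} [hH : IsWeilProj H]

include hC hH

/-- Sums of multiples of the projectors. -/
noncomputable def wsum (r : ℕ) (p : ℕ → Cor C Y) (c : ℕ → ℕ) : Cor C Y :=
  ∑ n ∈ Finset.range r, c n • p n

section part

variable {r : ℕ} {e : ℤ} {p : ℕ → Cor C Y}

lemma PartialCK.mul_eq (hp : PartialCK H Y r e p) {m n : ℕ} (hm : m < r) (hn : n < r) :
    p m * p n = if m = n then p m else 0 := by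
  by_cases h1 : m = n
  · rw [if_pos h1]
    subst h1
    exact hp.idem m hm
  · rw [if_neg h1]
    exact hp.orth n hn m hm (Ne.symm h1)

lemma PartialCK.wsum_mem (hp : PartialCK H Y r e p) (c : ℕ → ℕ) :
    wsum r p c ∈ cor0 C Y :=
  (cor0 C Y).sum_mem fun n hn => (cor0 C Y).nsmul_mem (hp.deg n (Finset.mem_range.1 hn)) _

lemma PartialCK.wsum_mul (hp : PartialCK H Y r e p) (c c' : ℕ → ℕ) :
    wsum r p c * wsum r p c' = wsum r p (fun n => c n * c' n) := by
  unfold wsum
  rw [Finset.sum_mul]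
  apply Finset.sum_congr rfl
  intro n hn
  rw [Finset.mul_sum, Finset.sum_eq_single n]
  · rw [smul_mul_assoc, mul_smul_comm, hp.mul_eq (Finset.mem_range.1 hn) (Finset.mem_range.1 hn),
      if_pos rfl, smul_smul]
  · intro m hm hmn
    rw [smul_mul_assoc, mul_smul_comm, hp.mul_eq (Finset.mem_range.1 hn) (Finset.mem_range.1 hm),
      if_neg (Ne.symm hmn), smul_zero, smul_zero]
  · intro h
    exact absurd hn h

lemma PartialCK.act_eq (hp : PartialCK H Y r e p) {n : ℕ} (hn : n < r) {m : ℤ} {x : H.A Y}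
    (hx : x ∈ H.gr Y m) : actH C Y H (p n) x = if m = n + 2 * e then x else 0 := by
  split_ifs with h1
  · subst h1
    exact hp.act_self n hn x hx
  · exact hp.act_ne n hn m x h1 hx

lemma PartialCK.wsum_act (hp : PartialCK H Y r e p) (c : ℕ → ℕ) {n : ℕ} (hn : n < r)
    {x : H.A Y} (hx : x ∈ H.gr Y ((n : ℤ) + 2 * e)) :
    actH C Y H (wsum r p c) x = c n • x := by
  unfold wsum
  rw [map_sum, LinearMap.sum_apply, Finset.sum_eq_single n]
  · rw [map_nsmul, LinearMap.smul_apply, hp.act_eq hn hx, if_pos rfl]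
  · intro m hm hmn
    rw [map_nsmul, LinearMap.smul_apply, hp.act_eq (Finset.mem_range.1 hm) hx, if_neg,
      smul_zero]
    intro h
    apply hmn
    omega
  · intro h
    exact absurd (Finset.mem_range.2 hn) h

lemma PartialCK.wsum_act_zero (hp : PartialCK H Y r e p) (c : ℕ → ℕ) {m : ℤ}
    (hm : ∀ n < r, m ≠ n + 2 * e) {x : H.A Y} (hx : x ∈ H.gr Y m) :
    actH C Y H (wsum r p c) x = 0 := by
  unfold wsum
  rw [map_sum, LinearMap.sum_apply]
  apply Finset.sum_eq_zero
  intro n hn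
  rw [Finset.mem_range] at hn
  rw [map_nsmul, LinearMap.smul_apply, hp.act_eq hn hx, if_neg (hm n hn), smul_zero]

lemma psum_eq_wsum : psum (C := C) (X := Y) r p = wsum r p (fun _ => 1) := by
  unfold psum wsum
  apply Finset.sum_congr rfl
  intro n _
  exact (one_smul ℕ (p n : Cor C Y)).symm

end part

/-- The main step of the descent. -/
theorem exists_selfDual_aux (e : ℤ) {a : C.A (X.prod Y)} {b : C.A (Y.prod X)}
    (ha : a ∈ C.gr (X.prod Y) ((X.dim : ℤ) + e)) (hb : b ∈ C.gr (Y.prod X) ((Y.dim : ℤ) + -e))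
    (hab : ∀ n < X.dim, ∀ x ∈ H.gr X (n : ℤ), H.act (H.cl b) (H.act (H.cl a) x) = x)
    {P P' : C.A (Y.prod Y)} (hPm : P ∈ C.gr (Y.prod Y) Y.dim) (hP'm : P' ∈ C.gr (Y.prod Y) Y.dim)
    (hPP : C.comp P P = P) (hPP' : C.comp P P' = P')
    (aP : ∀ n < X.dim, ∀ x ∈ H.gr Y ((n : ℤ) + 2 * e), H.act (H.cl P) x = x)
    (aP0 : ∀ m : ℤ, (∀ n < X.dim, m ≠ (n : ℤ) + 2 * e) → ∀ x ∈ H.gr Y m,
      H.act (H.cl P) x = 0)
    (aP' : ∀ n < X.dim, ∀ x ∈ H.gr Y ((n : ℤ) + 2 * e), H.act (H.cl P') x = (n + 1) • x)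
    (aP'0 : ∀ m : ℤ, (∀ n < X.dim, m ≠ (n : ℤ) + 2 * e) → ∀ x ∈ H.gr Y m,
      H.act (H.cl P') x = 0)
    (hnil : HomTrivialNilpotent H P) : ∃ π, IsCK H X π ∧ IsSelfDual C π := by
  have nsmul_act : ∀ {V W : 𝒱.Obj} (Γ : C.A (V.prod W)) (n : ℕ) (x : H.A V),
      H.act (H.cl Γ) (n • x) = n • H.act (H.cl Γ) x := by
    intro V W Γ n x
    exact map_nsmul (H.actL (H.cl Γ)) n x
  have ga : ∀ (m : ℤ) (x : H.A X), x ∈ H.gr X m → H.act (H.cl a) x ∈ H.gr Y (m + 2 * e) :=
    fun m x hx => actH_mem H ha hx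
  have gb : ∀ (m : ℤ) (x : H.A Y), x ∈ H.gr Y (m + 2 * e) → H.act (H.cl b) x ∈ H.gr X m := by
    intro m x hx
    have := actH_mem H hb hx
    rwa [show m + 2 * e + 2 * -e = m by ring] at this
  -- the two correspondences
  let L : C.A (X.prod Y) := C.comp a P
  let R : C.A (Y.prod X) := C.comp P' b
  let y : Cor C Y := C.comp R L
  let S : Cor C X := C.comp L R
  have hLm : L ∈ C.gr (X.prod Y) ((X.dim : ℤ) + e) := by
    have := comp_mem C (e := e) (e' := 0) ha (Δ := P) (by rw [add_zero]; exact hPm)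
    rwa [add_zero] at this
  have hRm : R ∈ C.gr (Y.prod X) ((Y.dim : ℤ) + -e) := by
    have := comp_mem C (e := 0) (e' := -e) (Γ := P') (by rw [add_zero]; exact hP'm) hb
    rwa [zero_add] at this
  have hSm : S ∈ cor0 C X := by
    have := comp_mem C hLm hRm
    rw [add_neg_cancel, add_zero] at this
    exact this
  have hym : y ∈ cor0 C Y := by
    have := comp_mem C hRm hLm
    rw [neg_add_cancel, add_zero] at this
    exact this
  -- the action of `S`
  have hSact : ∀ n < X.dim, ∀ x ∈ H.gr X (n : ℤ), actH C X H S x = (n + 1) • x := by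
    intro n hn x hx
    change H.act (H.cl (C.comp (C.comp a P) (C.comp P' b))) x = _
    rw [actH_comp, actH_comp, actH_comp, aP n hn _ (ga n x hx), aP' n hn _ (ga n x hx), nsmul_act,
      hab n hn x hx]
  have hSact0 : ∀ m : ℤ, (X.dim : ℤ) ≤ m → ∀ x ∈ H.gr X m, actH C X H S x = 0 := by
    intro m hm x hx
    change H.act (H.cl (C.comp (C.comp a P) (C.comp P' b))) x = _
    rw [actH_comp, actH_comp, actH_comp, aP0 (m + 2 * e) (fun n hn => by omega) _ (ga m x hx),
      TheoryData.act_map_zero, TheoryData.act_map_zero]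
  -- the action of `y`
  have hyact : ∀ n < X.dim, ∀ x ∈ H.gr Y ((n : ℤ) + 2 * e),
      actH C Y H y x = (n + 1) • H.act (H.cl a) (H.act (H.cl b) x) := by
    intro n hn x hx
    change H.act (H.cl (C.comp (C.comp P' b) (C.comp a P))) x = _
    rw [actH_comp, actH_comp, actH_comp, aP' n hn x hx, nsmul_act, nsmul_act, nsmul_act,
      aP n hn _ (ga n _ (gb n x hx))]
  have hyact0 : ∀ m : ℤ, (∀ n < X.dim, m ≠ (n : ℤ) + 2 * e) → ∀ x ∈ H.gr Y m,
      actH C Y H y x = 0 := by
    intro m hm x hx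
    change H.act (H.cl (C.comp (C.comp P' b) (C.comp a P))) x = _
    rw [actH_comp, actH_comp, actH_comp, aP'0 m hm x hx, TheoryData.act_map_zero,
      TheoryData.act_map_zero, TheoryData.act_map_zero]
  have hyy : ∀ n < X.dim, ∀ x ∈ H.gr Y ((n : ℤ) + 2 * e),
      actH C Y H y (actH C Y H y x) = (n + 1) • actH C Y H y x := by
    intro n hn x hx
    have h1 : H.act (H.cl a) (H.act (H.cl b) x) ∈ H.gr Y ((n : ℤ) + 2 * e) :=
      ga n _ (gb n x hx)
    rw [hyact n hn x hx, map_nsmul, hyact n hn _ h1, hab n hn _ (gb n x hx)]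
  -- a polynomial
  let Q : Polynomial ℚ := Polynomial.X * ∏ n ∈ Finset.range X.dim,
    (Polynomial.X - Polynomial.C ((n + 1 : ℕ) : ℚ))
  have hQ0 : Q ≠ 0 := by
    apply mul_ne_zero Polynomial.X_ne_zero
    exact Finset.prod_ne_zero_iff.2 fun n _ => Polynomial.X_sub_C_ne_zero _
  have key : ∀ F G : Polynomial ℚ, F ∣ G → ∀ x : H.A Y, actH C Y H (Polynomial.aeval y F) x = 0 →
      actH C Y H (Polynomial.aeval y G) x = 0 := by
    rintro F _ ⟨R, rfl⟩ x hx
    rw [mul_comm, map_mul, map_mul, Module.End.mul_apply, hx, map_zero]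
  have hQact : ∀ x : H.A Y, actH C Y H (Polynomial.aeval y Q) x = 0 := by
    have h1 : actH C Y H (Polynomial.aeval y Q) = 0 := by
      apply ext_gr H
      intro m x hx
      rw [LinearMap.zero_apply]
      by_cases hm : ∀ n < X.dim, m ≠ (n : ℤ) + 2 * e
      · apply key Polynomial.X Q (dvd_mul_right _ _)
        rw [Polynomial.aeval_X]
        exact hyact0 m hm x hx
      · push Not at hm
        obtain ⟨n, hn, rfl⟩ := hm
        apply key (Polynomial.X * (Polynomial.X - Polynomial.C ((n + 1 : ℕ) : ℚ))) Q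
        · exact mul_dvd_mul_left _ (Finset.dvd_prod_of_mem
            (fun n : ℕ => (Polynomial.X - Polynomial.C ((n + 1 : ℕ) : ℚ) : Polynomial ℚ))
            (Finset.mem_range.2 hn))
        · rw [map_mul, map_sub, Polynomial.aeval_X, Polynomial.aeval_C, map_natCast, mul_sub,
            map_sub, map_mul, map_mul, map_natCast, LinearMap.sub_apply, Module.End.mul_apply,
            Module.End.mul_apply, Module.End.natCast_apply, map_nsmul, hyy n hn x hx, sub_self]
    intro x
    rw [h1]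
    rfl
  have hQm : Polynomial.aeval y Q ∈ cor0 C Y := aeval_mem _ hym _
  have hRP : C.comp P R = R := by
    change C.comp P (C.comp P' b) = C.comp P' b
    rw [← comp_assoc, hPP']
  have hLP : C.comp L P = L := by
    change C.comp (C.comp a P) P = C.comp a P
    rw [comp_assoc, hPP]
  let P₁ : Cor C Y := P
  have hPy : P₁ * y = y := by
    change C.comp (C.comp R L) P = C.comp R L
    rw [comp_assoc, hLP]
  have hyP : y * P₁ = y := by
    change C.comp P (C.comp R L) = C.comp R L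
    rw [← comp_assoc, hRP]
  have hPQ : P₁ * Polynomial.aeval y Q * P₁ = Polynomial.aeval y Q := by
    have e1 : Polynomial.aeval y Q = y * Polynomial.aeval y (∏ n ∈ Finset.range X.dim,
        (Polynomial.X - Polynomial.C ((n + 1 : ℕ) : ℚ))) := by
      rw [map_mul, Polynomial.aeval_X]
    have e2 : Polynomial.aeval y Q = Polynomial.aeval y (∏ n ∈ Finset.range X.dim,
        (Polynomial.X - Polynomial.C ((n + 1 : ℕ) : ℚ))) * y := by
      have : Q = (∏ n ∈ Finset.range X.dim,
        (Polynomial.X - Polynomial.C ((n + 1 : ℕ) : ℚ))) * Polynomial.X := mul_comm _ _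
      rw [this, map_mul, Polynomial.aeval_X]
    have e3 : P₁ * Polynomial.aeval y Q = Polynomial.aeval y Q := by
      rw [e1, ← mul_assoc, hPy]
    rw [e3, e2, mul_assoc, hyP]
  -- nilpotency
  have nil : ∀ z ∈ cor0 C Y, actH C Y H z = 0 → P₁ * z * P₁ = z → IsNilpotent z := by
    intro z hz h0 hPz
    have h1 := hnil z hz (hom_zero_of_act H (X := Y) (Y := Y) fun x => by
      have := LinearMap.congr_fun h0 x
      exact this)
    have h2 : C.comp (C.comp P (z : C.A (Y.prod Y))) P = (P₁ * (z * P₁) : Cor C Y) := rfl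
    rw [h2, ← mul_assoc, hPz] at h1
    exact (isNilpotentCor_iff z).1 h1
  have hQn : IsNilpotent (Polynomial.aeval y Q) :=
    nil _ hQm (LinearMap.ext fun x => hQact x) hPQ
  obtain ⟨N, hN⟩ := hQn
  have hPS : Polynomial.aeval S (Q ^ N * Polynomial.X) = 0 := by
    rw [map_mul, Polynomial.aeval_X, ← sandwich_aeval L R y S rfl rfl, map_pow, hN, map_zero]
  refine exists_selfDual_of_lowSpectrum hSm (Q ^ N * Polynomial.X)
    (mul_ne_zero (pow_ne_zero _ hQ0) Polynomial.X_ne_zero) hPS hSact hSact0 ?_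
  intro z hz h0
  obtain ⟨z₁, hz₁⟩ : ∃ z₁ : C.A (X.prod X), z₁ = z := ⟨z, rfl⟩
  have hz0 : ∀ x, H.act (H.cl z₁) x = 0 := fun x => by
    rw [hz₁]
    exact LinearMap.congr_fun h0 x
  let L' : C.A (X.prod Y) := C.comp z₁ L
  let y' : Cor C Y := C.comp R L'
  have hS' : (S * z : Cor C X) = C.comp L' R := by
    rw [← hz₁]
    exact (comp_assoc C z₁ L R).symm
  apply isNilpotent_swap L' R y' (S * z) rfl hS'
  apply nil
  · have h1 : L' ∈ C.gr (X.prod Y) ((X.dim : ℤ) + e) := by
      have := comp_mem C (X := X) (Y := X) (Z := Y) (e := 0) (e' := e) (Γ := z₁)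
        (by rw [add_zero, hz₁]; exact hz) hLm
      rwa [zero_add] at this
    have := comp_mem C hRm h1
    rw [neg_add_cancel, add_zero] at this
    exact this
  · apply LinearMap.ext
    intro x
    change H.act (H.cl (C.comp R (C.comp z₁ L))) x = 0
    rw [actH_comp, actH_comp, hz0, TheoryData.act_map_zero]
  · have e1 : P₁ * y' = y' := by
      have e3 : C.comp (C.comp z₁ L) P = C.comp z₁ L := by
        refine (comp_assoc C z₁ L P).trans ?_
        rw [hLP]
      refine (comp_assoc C R (C.comp z₁ L) P).trans ?_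
      rw [e3]
    have e2 : y' * P₁ = y' := by
      change C.comp P (C.comp R L') = C.comp R L'
      rw [← comp_assoc, hRP]
    rw [e1, e2]

/-- **Descent from a partial decomposition.** -/
theorem exists_selfDual_of_partial (e : ℤ) {a : C.A (X.prod Y)} {b : C.A (Y.prod X)}
    (ha : a ∈ C.gr (X.prod Y) ((X.dim : ℤ) + e)) (hb : b ∈ C.gr (Y.prod X) ((Y.dim : ℤ) + -e))
    (hab : ∀ n < X.dim, ∀ x ∈ H.gr X (n : ℤ), H.act (H.cl b) (H.act (H.cl a) x) = x)
    {p : ℕ → C.A (Y.prod Y)} (hp : PartialCK H Y X.dim e p)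
    (hnil : HomTrivialNilpotent H (psum X.dim p)) : ∃ π, IsCK H X π ∧ IsSelfDual C π := by
  let p₁ : ℕ → Cor C Y := p
  have hp₁ : PartialCK H Y X.dim e p₁ := hp
  obtain ⟨P, hP⟩ : ∃ P : Cor C Y, P = wsum X.dim p₁ (fun _ => 1) := ⟨_, rfl⟩
  obtain ⟨P', hP'⟩ : ∃ P' : Cor C Y, P' = wsum X.dim p₁ (fun n => n + 1) := ⟨_, rfl⟩
  have hPs : psum X.dim p = P := by rw [hP]; exact psum_eq_wsum (H := H) (p := p₁)
  have hPP : P * P = P := by
    rw [hP, hp₁.wsum_mul]
  have hP'P : P' * P = P' := by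
    rw [hP, hP', hp₁.wsum_mul]
    congr 1
    funext n
    exact mul_one _
  have hPm : P ∈ cor0 C Y := hP ▸ hp₁.wsum_mem _
  have hP'm : P' ∈ cor0 C Y := hP' ▸ hp₁.wsum_mem _
  refine exists_selfDual_aux (P := P) (P' := P') e ha hb hab hPm hP'm hPP hP'P ?_ ?_ ?_ ?_ ?_
  · intro n hn x hx
    have := hp₁.wsum_act (fun _ => 1) hn hx
    rw [← hP, one_smul] at this
    exact this
  · intro m hm x hx
    have := hp₁.wsum_act_zero (fun _ => 1) hm hx
    rw [← hP] at this
    exact this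
  · intro n hn x hx
    have := hp₁.wsum_act (fun n => n + 1) hn hx
    rw [← hP'] at this
    exact this
  · intro m hm x hx
    have := hp₁.wsum_act_zero (fun n => n + 1) hm hx
    rw [← hP'] at this
    exact this
  · rw [← hPs]
    exact hnil

end Pool.Agent.Helper45M.SK
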