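import Mathlib

/-!
# Spectral idempotents: polynomials
-/

set_option autoImplicit false

namespace Pool.Agent.Helper45M.SK

open Polynomial

/-- `P = A * B` where `A` divides a power of `Q` and `B` is prime to `Q`. -/
theorem exists_split (Q : ℚ[X]) : ∀ (n : ℕ) (P : ℚ[X]), P ≠ 0 → P.natDegree ≤ n →
    ∃ (A B : ℚ[X]) (N : ℕ), P = A * B ∧ A ∣ Q ^ N ∧ IsCoprime B Q := by
  classical
  intro n
  induction n with
  | zero =>
    intro P hP hd
    have h1 : P.natDegree = 0 := by omega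
    rw [Polynomial.natDegree_eq_zero] at h1
    obtain ⟨c, rfl⟩ := h1
    have hc : c ≠ 0 := by
      rintro rfl
      exact hP (map_zero _)
    refine ⟨1, C c, 0, (one_mul _).symm, one_dvd _, ?_⟩
    refine ⟨C c⁻¹, 0, ?_⟩
    rw [zero_mul, add_zero, ← C_mul, inv_mul_cancel₀ hc, C_1]
  | succ n ih =>
    intro P hP hd
    by_cases hc : IsCoprime P Q
    · exact ⟨1, P, 0, (one_mul _).symm, one_dvd _, hc⟩
    · have hg : ¬ IsUnit (EuclideanDomain.gcd P Q) := fun h =>
        hc (EuclideanDomain.gcd_isUnit_iff.1 h)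
      obtain ⟨P', hP'⟩ := EuclideanDomain.gcd_dvd_left P Q
      set g := EuclideanDomain.gcd P Q with hgdef
      have hg0 : g ≠ 0 := by
        rintro h0
        rw [h0, zero_mul] at hP'
        exact hP hP'
      have hP'0 : P' ≠ 0 := by
        rintro rfl
        rw [mul_zero] at hP'
        exact hP hP'
      have hgd : 0 < g.natDegree := by
        rw [Nat.pos_iff_ne_zero]
        intro h0
        rw [Polynomial.natDegree_eq_zero] at h0
        obtain ⟨c, hc'⟩ := h0
        apply hg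
        rw [← hc']
        refine Polynomial.isUnit_C.2 (isUnit_iff_ne_zero.2 ?_)
        rintro rfl
        exact hg0 (by rw [← hc', map_zero])
      have hdeg : P.natDegree = g.natDegree + P'.natDegree := by
        rw [hP']
        exact Polynomial.natDegree_mul hg0 hP'0
      obtain ⟨A, B, N, h1, h2, h3⟩ := ih P' hP'0 (by omega)
      refine ⟨g * A, B, N + 1, ?_, ?_, h3⟩
      · rw [mul_assoc, ← h1]
        exact hP'
      · rw [pow_succ']
        exact mul_dvd_mul (EuclideanDomain.gcd_dvd_right P Q) h2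

/-- Spectral idempotents for pairwise coprime polynomials, modulo a polynomial `P ≠ 0`. -/
theorem exists_spectral {ι : Type} (s : Finset ι) (Q : ι → ℚ[X])
    (hQ : ∀ i ∈ s, ∀ j ∈ s, i ≠ j → IsCoprime (Q i) (Q j)) (P : ℚ[X]) (hP : P ≠ 0) :
    ∃ E : ι → ℚ[X], ∀ i ∈ s, P ∣ E i * E i - E i ∧ Q i ∣ E i - 1 ∧
      ∀ j ∈ s, i ≠ j → Q j ∣ E i ∧ P ∣ E i * E j := by
  classical
  obtain ⟨A, B, N, hAB, hA, hB⟩ := exists_split (∏ j ∈ s, Q j) _ P hP le_rfl
  let F : ι → ℚ[X] := fun j => Q j ^ (N + 1)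
  let G : ι → ℚ[X] := fun i => B * ∏ j ∈ s.erase i, F j
  have hBQ : ∀ j ∈ s, IsCoprime B (Q j) := fun j hj => IsCoprime.prod_right_iff.1 hB j hj
  have hFG : ∀ i ∈ s, IsCoprime (F i) (G i) := by
    intro i hi
    refine IsCoprime.mul_right ((hBQ i hi).symm.pow_left) ?_
    rw [IsCoprime.prod_right_iff]
    intro j hj
    rw [Finset.mem_erase] at hj
    exact (hQ i hi j hj.2 (Ne.symm hj.1)).pow
  have hZ : ∀ i ∈ s, F i * G i = B * ∏ j ∈ s, F j := by
    intro i hi
    rw [← Finset.mul_prod_erase s F hi]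
    ring
  have hPZ : P ∣ B * ∏ j ∈ s, F j := by
    rw [hAB, mul_comm]
    refine mul_dvd_mul_left _ (hA.trans ?_)
    simp only [F]
    rw [Finset.prod_pow]
    exact pow_dvd_pow _ (Nat.le_succ N)
  have hQF : ∀ i, Q i ∣ F i := fun i => dvd_pow_self _ (Nat.succ_ne_zero N)
  have hFGne : ∀ i ∈ s, ∀ j ∈ s, i ≠ j → F j ∣ G i := by
    intro i hi j hj hij
    refine Dvd.dvd.mul_left ?_ _
    exact Finset.dvd_prod_of_mem F (Finset.mem_erase.2 ⟨Ne.symm hij, hj⟩)
  choose! u v huv using hFG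
  refine ⟨fun i => v i * G i, fun i hi => ⟨?_, ?_, fun j hj hij => ⟨?_, ?_⟩⟩⟩
  · have e1 : v i * G i * (v i * G i) - v i * G i = -(v i * u i) * (F i * G i) := by
      have h1 : v i * G i = 1 - u i * F i := by rw [← huv i hi]; ring
      calc v i * G i * (v i * G i) - v i * G i = v i * G i * (v i * G i - 1) := by ring
        _ = v i * G i * (-(u i * F i)) := by
            congr 1
            rw [h1]; ring
        _ = _ := by ring
    rw [e1, hZ i hi]
    exact hPZ.mul_left _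
  · have e1 : v i * G i - 1 = -u i * F i := by
      have h1 : v i * G i = 1 - u i * F i := by rw [← huv i hi]; ring
      rw [h1]; ring
    rw [e1]
    exact (hQF i).mul_left _
  · exact ((hQF j).trans (hFGne i hi j hj hij)).mul_left _
  · have h1 : P ∣ F j * G j := by rw [hZ j hj]; exact hPZ
    obtain ⟨W, hW⟩ := hFGne i hi j hj hij
    have e1 : v i * G i * (v j * G j) = (v i * W * v j) * (F j * G j) := by
      rw [hW]; ring
    change P ∣ v i * G i * (v j * G j)
    rw [e1]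
    exact h1.mul_left _

/-- A solution of `1 + 2 h + t h ^ 2 = 0` modulo `t ^ N`. -/
theorem exists_sqrt (N : ℕ) : ∃ h : ℚ[X], (X : ℚ[X]) ^ N ∣ 1 + 2 * h + X * h ^ 2 := by
  induction N with
  | zero => exact ⟨0, by simp⟩
  | succ N ih =>
    obtain ⟨h, R, hR⟩ := ih
    refine ⟨h - C (1 / 2) * (1 + 2 * h + X * h ^ 2), ?_⟩
    have e2 : (2 : ℚ[X]) * C (1 / 2) = 1 := by
      have : (2 : ℚ[X]) = C 2 := rfl
      rw [this, ← C_mul]
      norm_num
    have e1 : 1 + 2 * (h - C (1 / 2) * (1 + 2 * h + X * h ^ 2)) +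
        X * (h - C (1 / 2) * (1 + 2 * h + X * h ^ 2)) ^ 2 =
        X ^ (N + 1) * (-(2 * C (1 / 2)) * h * R + X ^ N * C (1 / 2) ^ 2 * R ^ 2) +
        (1 - 2 * C (1 / 2)) * (X ^ N * R) := by
      rw [← hR]
      have e3 : X ^ (N + 1) * (-(2 * C (1 / 2)) * h * R + X ^ N * C (1 / 2) ^ 2 * R ^ 2) =
          X * (-(2 * C (1 / 2)) * h * (X ^ N * R) + C (1 / 2) ^ 2 * (X ^ N * R) ^ 2) := by
        ring
      rw [e3, ← hR]
      ring
    rw [e1, e2, sub_self, zero_mul, add_zero]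
    exact dvd_mul_right _ _

/-- The inverse of `1 + t h` modulo `t ^ N`. -/
theorem exists_inv (N : ℕ) (h : ℚ[X]) : ∃ v : ℚ[X], (X : ℚ[X]) ^ N ∣ (1 + X * h) * v - 1 := by
  have h1 : IsCoprime (1 + X * h) ((X : ℚ[X]) ^ N) := by
    apply IsCoprime.pow_right
    exact ⟨1, -h, by ring⟩
  obtain ⟨a, b, hab⟩ := h1
  exact ⟨a, -b, by linear_combination hab⟩

end Pool.Agent.Helper45M.SK
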