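import Pool.Agent.Helper45M.SK.Crit

/-!
# Self-dual Chow-Kunneth decompositions from one correspondence
-/

set_option autoImplicit false

open CategoryTheory AlgebraicGeometry

universe u v w

namespace Pool.Agent.Helper45M.SK

open Pool.Agent.H914 Pool.Agent.H914.VarClass Pool.Agent.H914.VarClass.Obj Pool.Agent.W492.BB
  Pool.Agent.W550.Corr Pool.Agent.TH133 Pool.Agent.Y107

set_option linter.unusedSectionVars false

section ring

variable {A : Type*} [Ring A] [Algebra ℚ A]

theorem aeval_commute {a b : A} (h : a * b = b * a) (P Q : Polynomial ℚ) :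
    Polynomial.aeval a P * Polynomial.aeval b Q = Polynomial.aeval b Q * Polynomial.aeval a P := by
  have h1 : Polynomial.aeval a P * b = b * Polynomial.aeval a P := aeval_intertwine h P
  exact (aeval_intertwine h1.symm Q).symm

theorem aeval_eigen {T p : A} {c : ℚ} (h : T * p = c • p) (F : Polynomial ℚ) :
    Polynomial.aeval T F * p = F.eval c • p := by
  induction F using Polynomial.induction_on' with
  | add P Q hP hQ => rw [map_add, add_mul, hP, hQ, Polynomial.eval_add, add_smul]
  | monomial n q =>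
    have hn : T ^ n * p = c ^ n • p := by
      induction n with
      | zero => simp
      | succ n ih => rw [pow_succ, mul_assoc, h, mul_smul_comm, ih, smul_smul, pow_succ, mul_comm]
    rw [Polynomial.aeval_monomial, mul_assoc, hn, Polynomial.eval_monomial, mul_smul,
      ← Algebra.smul_def]

end ring

variable {k : Type u} [Field k] {𝒱 : VarClass k}

variable {C : TheoryData.{u, v, 0} 𝒱 ℚ} [hC : IsChowProj C]

variable {K : Type w} [Field K] {H : WeilTheoryData.{u, v, w} C K} [hH : IsWeilProj H]
  {X Y Z : 𝒱.Obj}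

include hC hH

/-- Spectral idempotents of a correspondence. -/
theorem exists_spectral_cor (T : Cor C X) (P : Polynomial ℚ) (hP : P ≠ 0)
    (hPT : Polynomial.aeval T P = 0) (r : ℕ) (Q : ℕ → Polynomial ℚ)
    (hQ : ∀ m < r, ∀ n < r, m ≠ n → IsCoprime (Q m) (Q n)) :
    ∃ E : ℕ → Polynomial ℚ, ∀ i < r,
      Polynomial.aeval T (E i) * Polynomial.aeval T (E i) = Polynomial.aeval T (E i) ∧
      (∀ x : H.A X, actH C X H (Polynomial.aeval T (Q i)) x = 0 →
        actH C X H (Polynomial.aeval T (E i)) x = x) ∧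
      ∀ j < r, i ≠ j → Q j ∣ E i ∧
        Polynomial.aeval T (E i) * Polynomial.aeval T (E j) = 0 ∧
        ∀ x : H.A X, actH C X H (Polynomial.aeval T (Q j)) x = 0 →
          actH C X H (Polynomial.aeval T (E i)) x = 0 := by
  obtain ⟨E, hE⟩ := exists_spectral (Finset.range r) Q
    (fun i hi j hj => hQ i (Finset.mem_range.1 hi) j (Finset.mem_range.1 hj)) P hP
  have key : ∀ F G : Polynomial ℚ, F ∣ G → ∀ x : H.A X, actH C X H (Polynomial.aeval T F) x = 0 →
      actH C X H (Polynomial.aeval T G) x = 0 := by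
    rintro F _ ⟨R, rfl⟩ x hx
    rw [mul_comm, map_mul, map_mul, Module.End.mul_apply, hx, map_zero]
  refine ⟨E, fun i hi => ?_⟩
  obtain ⟨h1, h2, h3⟩ := hE i (Finset.mem_range.2 hi)
  refine ⟨?_, fun x hx => ?_, fun j hj hij => ?_⟩
  · have := aeval_eq_zero_of_dvd h1 hPT
    rw [map_sub, map_mul] at this
    exact sub_eq_zero.1 this
  · have := key _ _ h2 x hx
    rw [map_sub, map_sub, map_one, map_one, LinearMap.sub_apply, Module.End.one_apply] at this
    exact sub_eq_zero.1 this
  · obtain ⟨h4, h5⟩ := h3 j (Finset.mem_range.2 hj) hij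
    refine ⟨h4, ?_, fun x hx => key _ _ h4 x hx⟩
    have := aeval_eq_zero_of_dvd h5 hPT
    rwa [map_mul] at this

/-- A self-dual decomposition from a correspondence commuting with its transpose. -/
theorem exists_selfDual_of_spectral {T : Cor C X} (hT : T ∈ cor0 C X)
    (hcomm : T * tpR C X T = tpR C X T * T) (P : Polynomial ℚ) (hP : P ≠ 0)
    (hPT : Polynomial.aeval T P = 0) (Q : ℕ → Polynomial ℚ)
    (hQ : ∀ m ≤ 2 * X.dim, ∀ n ≤ 2 * X.dim, m ≠ n → IsCoprime (Q m) (Q n))
    (hact : ∀ n ≤ 2 * X.dim, ∀ x ∈ H.gr X (n : ℤ),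
      actH C X H (Polynomial.aeval T (Q n)) x = 0) :
    ∃ π, IsCK H X π ∧ IsSelfDual C π := by
  obtain ⟨E, hE⟩ := exists_spectral_cor (H := H) T P hP hPT (2 * X.dim + 1) Q
    (fun m hm n hn => hQ m (by omega) n (by omega))
  let e : ℕ → Cor C X := fun n => Polynomial.aeval T (E n)
  have eS : ∀ n, tpR C X (e n) = Polynomial.aeval (tpR C X T) (E n) := fun n =>
    aeval_sigma (tpR C X) tpR_mul tpR_one T (E n)
  have ecomm : ∀ m n, e m * tpR C X (e n) = tpR C X (e n) * e m := by
    intro m n
    rw [eS]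
    exact aeval_commute hcomm _ _
  have emul : ∀ m ≤ 2 * X.dim, ∀ n ≤ 2 * X.dim, e m * e n = if m = n then e m else 0 := by
    intro m hm n hn
    split_ifs with h
    · rw [h]
      exact (hE n (by omega)).1
    · exact ((hE m (by omega)).2.2 n (by omega) h).2.1
  have eact : ∀ n ≤ 2 * X.dim, ∀ (m : ℤ), ∀ x ∈ H.gr X m,
      actH C X H (e n) x = (if m = n then (1 : K) else 0) • x := by
    intro n hn m x hx
    by_cases hx0 : x = 0
    · rw [hx0, map_zero, smul_zero]
    have hm0 := nonneg_of_mem H hx hx0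
    obtain ⟨m, rfl⟩ := Int.eq_ofNat_of_zero_le hm0
    have hm1 : m ≤ 2 * X.dim := by
      by_contra hcon
      rw [gr_top H (by omega)] at hx
      exact hx0 ((Submodule.mem_bot _).1 hx)
    by_cases h : m = n
    · rw [if_pos (by rw [h]), one_smul]
      subst h
      exact (hE m (by omega)).2.1 x (hact m hm1 x hx)
    · rw [if_neg (by exact_mod_cast h), zero_smul]
      exact ((hE n (by omega)).2.2 m (by omega) (Ne.symm h)).2.2 x (hact m hm1 x hx)
  have emem : ∀ n, e n ∈ cor0 C X := fun n => aeval_mem _ hT _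
  have stmul : ∀ m ≤ 2 * X.dim, ∀ n ≤ 2 * X.dim,
      tpR C X (e m) * tpR C X (e n) = if m = n then tpR C X (e m) else 0 := by
    intro m hm n hn
    rw [← tpR_mul, emul n hn m hm]
    by_cases h : n = m
    · rw [if_pos h, if_pos h.symm, h]
    · rw [if_neg h, if_neg (Ne.symm h), map_zero]
  let p : ℕ → Cor C X := fun n => e n * tpR C X (e (2 * X.dim - n))
  have hprod : ∀ a b c d : Cor C X, b * c = c * b → a * b * (c * d) = (a * c) * (b * d) := by
    intro a b c d h
    calc a * b * (c * d) = a * (b * c) * d := by simp only [mul_assoc]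
      _ = a * (c * b) * d := by rw [h]
      _ = _ := by simp only [mul_assoc]
  have half : Half H X p := by
    refine ⟨fun n hn => (cor0 C X).mul_mem (emem _) (tpR_mem (emem _)), fun m hm n hn => ?_,
      fun n hn m x hx => ?_⟩
    · change e m * tpR C X (e (2 * X.dim - m)) * (e n * tpR C X (e (2 * X.dim - n))) = _
      rw [hprod _ _ _ _ (ecomm _ _).symm, emul m (by omega) n (by omega),
        stmul _ (by omega) _ (by omega)]
      by_cases h : m = n
      · rw [if_pos h, if_pos (by omega), if_pos h]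
      · rw [if_neg h, zero_mul, if_neg h]
    · change actH C X H (e n * tpR C X (e (2 * X.dim - n))) x = _
      have h2 := actH_tp (H := H) (a := e (2 * X.dim - n))
        (fun m => if m = (2 * X.dim - n : ℕ) then (1 : K) else 0)
        (fun m x hx => eact _ (by omega) m x hx) m x hx
      rw [map_mul, Module.End.mul_apply, h2, map_smul, eact n (by omega) m x hx]
      by_cases h : m = n
      · rw [if_pos (by omega), if_pos h, if_pos h, one_smul, one_smul]
      · rw [if_neg (by omega), zero_smul, if_neg h]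
  apply exists_selfDual_of_half half
  refine ⟨1, ?_⟩
  rw [pow_one, map_sum, Finset.sum_mul]
  apply Finset.sum_eq_zero
  intro m hm
  rw [Finset.mul_sum]
  apply Finset.sum_eq_zero
  intro n hn
  rw [Finset.mem_range] at hm hn
  change e m * tpR C X (e (2 * X.dim - m)) * tpR C X (e n * tpR C X (e (2 * X.dim - n))) = 0
  rw [tpR_mul, tpR_tpR, hprod _ _ _ _ (ecomm _ _).symm, emul m (by omega) _ (by omega),
    if_neg (by omega), zero_mul]

/-- The weight operator of a self-dual decomposition. -/
theorem exists_weight {π : ℕ → Cor C X} (hπ : IsCK H X π) (hd : IsSelfDual C (X := X) π) :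
    ∃ T ∈ cor0 C X, tpR C X T = -T ∧
      (∀ F : Polynomial ℚ, (∀ n ≤ 2 * X.dim, F.eval ((n : ℚ) - X.dim) = 0) →
        Polynomial.aeval T F = 0) ∧
      ∀ (n : ℤ), ∀ a ∈ H.gr X n, actH C X H T a = ((n : K) - X.dim) • a := by
  have hsum : ∑ i ∈ Finset.range (2 * X.dim + 1), π i = (1 : Cor C X) := hπ.sum_eq
  let T : Cor C X := ∑ n ∈ Finset.range (2 * X.dim + 1), ((n : ℚ) - X.dim) • π n
  have hTπ : ∀ n ≤ 2 * X.dim, T * π n = ((n : ℚ) - X.dim) • π n := by
    intro n hn
    simp only [T]
    rw [Finset.sum_mul, Finset.sum_eq_single n]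
    · rw [smul_mul_assoc, hπ.mul_eq, if_pos rfl]
    · intro m _ hm
      rw [smul_mul_assoc, hπ.mul_eq, if_neg hm, smul_zero]
    · intro h
      exact absurd (Finset.mem_range.2 (by omega)) h
  refine ⟨T, ?_, ?_, ?_, ?_⟩
  · exact (cor0 C X).sum_mem fun n _ => (cor0 C X).smul_mem (hπ.deg n) _
  · have e1 : tpR C X T = ∑ n ∈ Finset.range (2 * X.dim + 1),
        ((n : ℚ) - X.dim) • π (2 * X.dim - n) := by
      simp only [T]
      rw [map_sum]
      apply Finset.sum_congr rfl
      intro n hn
      rw [Finset.mem_range] at hn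
      rw [tpR_smul]
      congr 1
      exact hd n (by omega)
    have e2 : ∑ n ∈ Finset.range (2 * X.dim + 1), ((n : ℚ) - X.dim) • π (2 * X.dim - n) =
        ∑ n ∈ Finset.range (2 * X.dim + 1),
          (fun j : ℕ => (((2 * X.dim - j : ℕ) : ℚ) - X.dim) • π j) (2 * X.dim + 1 - 1 - n) := by
      apply Finset.sum_congr rfl
      intro n hn
      rw [Finset.mem_range] at hn
      have e3 : 2 * X.dim + 1 - 1 - n = 2 * X.dim - n := by omega
      simp only [e3]
      have e4 : 2 * X.dim - (2 * X.dim - n) = n := by omega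
      rw [e4]
    rw [e1, e2, Finset.sum_range_reflect
      (fun j : ℕ => (((2 * X.dim - j : ℕ) : ℚ) - X.dim) • π j) (2 * X.dim + 1)]
    simp only [T]
    rw [← Finset.sum_neg_distrib]
    apply Finset.sum_congr rfl
    intro n hn
    rw [Finset.mem_range] at hn
    rw [← neg_smul]
    congr 1
    rw [Nat.cast_sub (by omega)]
    push_cast
    ring
  · intro F hF
    have h1 : Polynomial.aeval T F = Polynomial.aeval T F *
        ∑ i ∈ Finset.range (2 * X.dim + 1), π i := by rw [hsum, mul_one]
    rw [h1, Finset.mul_sum]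
    apply Finset.sum_eq_zero
    intro n hn
    rw [Finset.mem_range] at hn
    rw [aeval_eigen (hTπ n (by omega)), hF n (by omega), zero_smul]
  · intro n a ha
    by_cases ha0 : a = 0
    · rw [ha0, map_zero, smul_zero]
    have hm0 := nonneg_of_mem H ha ha0
    obtain ⟨n, rfl⟩ := Int.eq_ofNat_of_zero_le hm0
    have hm1 : n ≤ 2 * X.dim := by
      by_contra hcon
      rw [gr_top H (by omega)] at ha
      exact ha0 ((Submodule.mem_bot _).1 ha)
    have h1 : actH C X H (T * π n) a = actH C X H T a := by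
      rw [map_mul, Module.End.mul_apply, hπ.actH_eq' n n ha, if_pos rfl]
    rw [← h1, hTπ n hm1, Algebra.smul_def, map_mul, Module.End.mul_apply, hπ.actH_eq' n n ha,
      if_pos rfl, map_sub, map_natCast, map_natCast, map_sub, map_natCast, map_natCast,
      LinearMap.sub_apply, sub_smul, Int.cast_natCast, Nat.cast_smul_eq_nsmul,
      Nat.cast_smul_eq_nsmul, Module.End.natCast_apply, Module.End.natCast_apply]

end Pool.Agent.Helper45M.SK
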